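import Pool.Agent.Lib.MP_89c171_co.Main

/-! `MP_89c171_co`, Q1 for pairs of subrows of the Kolakoski sequence with a common boundary whose
other boundaries are close to each other. -/

namespace Pool.Agent.Results.MP_89c171_co.ShortHistories

open Pool.Agent.Lib.MP_89c171_co

/-- The Kolakoski sequence exists and is unique, and two distinct subrows `u`, `w` of it (one of
which may be empty) with the same start, the same end or with `w` starting right after `u`, whose
other boundaries are at distance less than `20` and different from `16`, have different histories of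
parity; they differ at some `n ≤ 17`. -/
theorem result :
    (∃! s : ℕ → ℕ, IsKolakoski s) ∧
    ∀ s : ℕ → ℕ, IsKolakoski s → ∀ u w : ℕ × ℕ, u ≠ w →
      (u.1 = w.1 ∧ |(u.2 : ℤ) - w.2| < 20 ∧ |(u.2 : ℤ) - w.2| ≠ 16 ∨
        u.1 + u.2 = w.1 + w.2 ∧ |(u.2 : ℤ) - w.2| < 20 ∧ |(u.2 : ℤ) - w.2| ≠ 16 ∨
        u.1 + u.2 = w.1 ∧ u.2 + w.2 < 20 ∧ u.2 + w.2 ≠ 16) →
      ∃ n ≤ 17, parity s u n ≠ parity s w n :=
  ⟨existsUnique_kolakoski, fun _ h u w huw hc => pair_ne h u w huw hc⟩

end Pool.Agent.Results.MP_89c171_co.ShortHistories
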